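import Pool.Agent.helper63.NU.Defs3
import Pool.Agent.helper63.NU.Stmt3
import Pool.Agent.helper80.NU.H2

set_option autoImplicit false
set_option linter.all false

/-! Module R1: continuity of the scalar curvature and of `|∇f|²`; smooth competitors for `ν`. -/

open MeasureTheory Filter Topology Set
open scoped ContDiff Manifold Matrix ENNReal ComplexOrder

noncomputable section

namespace Pool.Agent.helper63.NU

variable {n : ℕ} {M : Type*} [TopologicalSpace M] [ChartedSpace (E n) M]
  [IsManifold 𝓘(ℂ, E n) ω M]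

namespace R1aux

open H2aux B4aux

omit [IsManifold 𝓘(ℂ, E n) ω M] in
theorem continuous_of_sm {f : M → ℂ} (hf : Sm n f) : Continuous f := by
  rw [continuous_iff_continuousAt]
  intro x
  set e := chartAt (E n) x with he
  have hea : e ∈ atlas (E n) M := chart_mem_atlas _ _
  have hx : x ∈ e.source := mem_chart_source _ _
  have h1 : ContinuousAt (fun y => f (e.symm y)) (e x) :=
    (hf e hea).continuousOn.continuousAt (e.open_target.mem_nhds (e.map_source hx))
  have h2 : ContinuousAt (fun z => f (e.symm (e z))) x :=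
    ContinuousAt.comp (f := e) (g := fun y => f (e.symm y)) h1 (e.continuousAt hx)
  refine h2.congr ?_
  filter_upwards [e.open_source.mem_nhds hx] with z hz
  rw [e.left_inv hz]

omit [IsManifold 𝓘(ℂ, E n) ω M] in
theorem continuous_of_sm_real {f : M → ℝ} (hf : Sm n fun x => ((f x : ℝ) : ℂ)) :
    Continuous f := by
  have h := continuous_of_sm hf
  have h2 : f = fun x => (((f x : ℝ) : ℂ)).re := by funext x; simp
  rw [h2]
  exact Complex.continuous_re.comp h

theorem continuousOn_cn' {U : Set (E n)} (hU : IsOpen U) {ψ : E n → ℝ} (hψ : ContDiffOn ℝ ∞ ψ U)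
    (hp : ∀ y ∈ U, (lev ψ y).PosDef) {f g : E n → ℂ} (hf : ContDiffOn ℝ ∞ f U)
    (hg : ContDiffOn ℝ ∞ g U) :
    ContinuousOn (fun y => cn (lev ψ y) (dbv f y) (dbv g y)) U := by
  unfold cn dbv
  apply continuousOn_finset_sum
  intro k _
  apply continuousOn_finset_sum
  intro j _
  exact (((contDiffOn_db hU hf k).continuousOn).mul
    ((contDiffOn_lev_inv hU hψ hp k j).continuousOn)).mul
    (Complex.continuous_conj.comp_continuousOn (contDiffOn_db hU hg j).continuousOn)

omit [IsManifold 𝓘(ℂ, E n) ω M] in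
/-- a real smooth function as a section of `-0K` -/
theorem isSec_of_sm {f : M → ℂ} (hf : Sm n f) : IsSec 0 (fun e y => f (e.symm y) : Fam n M ℂ) where
  smooth := hf
  trans := by
    intro e he e' he' x hx
    simp [e.left_inv hx.1, e'.left_inv hx.2]

/-- `|∂̄f|²` is continuous -/
theorem continuous_gr {φ : Fam n M ℝ} (hφ : IsPos 1 φ) {f : M → ℝ}
    (hf : Sm n fun x => ((f x : ℝ) : ℂ)) : Continuous (gr φ f) := by
  letI : MeasurableSpace M := borel M
  haveI : BorelSpace M := ⟨rfl⟩
  set s : Fam n M ℂ := fun e y => ((f (e.symm y) : ℝ) : ℂ) with hs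
  have hsec : IsSec 0 s := isSec_of_sm hf
  have hden : IsDen (en φ s s) := en_isDen (k := 0) (by simpa using hφ) hsec hsec
  have hc : Continuous (fn φ (en φ s s)) := by
    refine continuous_fn hφ.toIsWeight hden fun e he => ?_
    refine (continuousOn_cn' e.open_target (hφ.smooth e he) (hφ.pos e he) (hsec.smooth e he)
      (hsec.smooth e he)).mul ?_
    have h : ContDiffOn ℝ ∞ (fun z => Real.exp (-φ e z)) e.target := (hφ.smooth e he).neg.exp
    exact (Complex.ofRealCLM.contDiff.comp_contDiffOn h).continuousOn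
  have h2 : gr φ f = fun x => (fn φ (en φ s s) x).re := by
    funext x
    have h3 : fn φ (en φ s s) x = cn (lev (φ (chartAt (E n) x)) (chartAt (E n) x x))
        (dbv (s (chartAt (E n) x)) (chartAt (E n) x x))
        (dbv (s (chartAt (E n) x)) (chartAt (E n) x x)) := by
      unfold fn en
      rw [mul_assoc, ← Complex.ofReal_mul, ← Real.exp_add, neg_add_cancel, Real.exp_zero,
        Complex.ofReal_one, mul_one]
    rw [h3]
    rfl
  rw [h2]
  exact Complex.continuous_re.comp hc

/-- `|∇f|²` in terms of `|∂̄f|²` -/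
theorem grad2_gr {φ : Fam n M ℝ} (hφ : IsPos 1 φ) {lam : ℝ} (hlam : 0 < lam) {h : MFam n M}
    (hh : ∀ e ∈ atlas (E n) M, ∀ y ∈ e.target, h e y = ((2 * lam : ℝ) : ℂ) • lev (φ e) y)
    (f : M → ℝ) (x : M) : grad2 h f x = 4 / (2 * lam) * gr φ f x := by
  set e := chartAt (E n) x with hedef
  have he : e ∈ atlas (E n) M := chart_mem_atlas _ _
  have hxe : x ∈ e.source := mem_chart_source _ _
  have hy := e.map_source hxe
  have h4 : ∑ j, ∑ k, (h e (e x))⁻¹ k j * dz j (fun z => ((f (e.symm z) : ℝ) : ℂ)) (e x) *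
      db k (fun z => ((f (e.symm z) : ℝ) : ℂ)) (e x) =
      (((2 * lam)⁻¹ : ℝ) : ℂ) * cn (lev (φ e) (e x)) (dbv (fun z => ((f (e.symm z) : ℝ) : ℂ)) (e x))
        (dbv (fun z => ((f (e.symm z) : ℝ) : ℂ)) (e x)) := by
    rw [hh e he _ hy, inv_smul_lev hφ he hy hlam, cn, Finset.mul_sum, Finset.sum_comm]
    refine Finset.sum_congr rfl fun k _ => ?_
    rw [Finset.mul_sum]
    refine Finset.sum_congr rfl fun j _ => ?_
    have hdz : dz j (fun z => ((f (e.symm z) : ℝ) : ℂ)) (e x) =
        (starRingEnd ℂ) (db j (fun z => ((f (e.symm z) : ℝ) : ℂ)) (e x)) := by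
      rw [← dz_conj]
      simp only [Complex.conj_ofReal]
    rw [Matrix.smul_apply, smul_eq_mul, hdz, dbv, dbv]
    push_cast
    ring
  have h5 : grad2 h f x = 4 * (∑ j, ∑ k, (h e (e x))⁻¹ k j *
      dz j (fun z => ((f (e.symm z) : ℝ) : ℂ)) (e x) *
      db k (fun z => ((f (e.symm z) : ℝ) : ℂ)) (e x)).re := rfl
  have h6 : gr φ f x = (cn (lev (φ e) (e x)) (dbv (fun z => ((f (e.symm z) : ℝ) : ℂ)) (e x))
        (dbv (fun z => ((f (e.symm z) : ℝ) : ℂ)) (e x))).re := rfl
  rw [h5, h4, Complex.re_ofReal_mul, ← h6]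
  field_simp

theorem sm_uu {φ : Fam n M ℝ} (hφ : IsPos 1 φ) : Sm n (fun x => ((uu φ x : ℝ) : ℂ)) :=
  sm_of_real (g := fun t => t) contDiff_id hφ

end R1aux

open H2aux R1aux

variable [CompactSpace M] [T2Space M] [Nonempty M] [MeasurableSpace M] [BorelSpace M]

theorem isFiniteMeasure_of_isVol {φ : Fam n M ℝ} (hφ : IsPos 1 φ) {lam : ℝ} (hlam : 0 < lam)
    {h : MFam n M}
    (hh : ∀ e ∈ atlas (E n) M, ∀ y ∈ e.target, h e y = ((2 * lam : ℝ) : ℂ) • lev (φ e) y)
    {dv : Measure M} (hv : IsVol h dv) : IsFiniteMeasure dv :=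
  isFiniteMeasure_of_isDens (kap_weight hφ hlam hh) (kap_dens hφ hlam hh hv)

theorem continuous_scal {φ : Fam n M ℝ} (hφ : IsPos 1 φ) {lam : ℝ} (hlam : 0 < lam)
    {h : MFam n M}
    (hh : ∀ e ∈ atlas (E n) M, ∀ y ∈ e.target, h e y = ((2 * lam : ℝ) : ℂ) • lev (φ e) y) :
    Continuous (scal h) := by
  have h1 : scal h = fun x => -(2 / lam) * (lap φ (uu φ) x - n) := by
    funext x
    exact scal_eq hφ hlam hh x
  rw [h1]
  exact continuous_const.mul ((continuous_lap hφ (sm_uu hφ)).sub continuous_const)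

theorem continuous_grad2 {φ : Fam n M ℝ} (hφ : IsPos 1 φ) {lam : ℝ} (hlam : 0 < lam)
    {h : MFam n M}
    (hh : ∀ e ∈ atlas (E n) M, ∀ y ∈ e.target, h e y = ((2 * lam : ℝ) : ℂ) • lev (φ e) y)
    {f : M → ℝ} (hf : Sm n fun x => ((f x : ℝ) : ℂ)) : Continuous (grad2 h f) := by
  have h1 : grad2 h f = fun x => 4 / (2 * lam) * gr φ f x := by
    funext x
    exact grad2_gr hφ hlam hh f x
  rw [h1]
  exact continuous_const.mul (continuous_gr hφ hf)

/-- a smooth positive function is a competitor for `ν` -/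
theorem nu_le_of_smooth {φ : Fam n M ℝ} (hφ : IsPos 1 φ) {lam : ℝ} (hlam : 0 < lam)
    {h : MFam n M}
    (hh : ∀ e ∈ atlas (E n) M, ∀ y ∈ e.target, h e y = ((2 * lam : ℝ) : ℂ) • lev (φ e) y)
    {dv : Measure M} (hv : IsVol h dv) {f : M → ℝ} (hf : Sm n fun x => ((f x : ℝ) : ℂ))
    (hf0 : ∀ x, 0 < f x) (hf1 : ∫ x, f x ^ 2 ∂dv = 1) {τ : ℝ} (hτ : 0 < τ) :
    nu h dv ≤ ((W h dv f τ : ℝ) : EReal) := by
  haveI hfin : IsFiniteMeasure dv := isFiniteMeasure_of_isVol hφ hlam hh hv
  have hcf : Continuous f := continuous_of_sm_real hf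
  have hint : ∀ g : M → ℝ, Continuous g → Integrable g dv := fun g hg =>
    hg.integrable_of_hasCompactSupport (HasCompactSupport.of_compactSpace g)
  have hzero : ∀ x, grad2 h (fun x => f x - f x) x = 0 := by
    intro x
    unfold grad2
    simp only [sub_self, Complex.ofReal_zero, db_const, mul_zero, Finset.sum_const_zero,
      Complex.zero_re]
  have hW12 : IsW12 h dv f (∫ x, grad2 h f x ∂dv) := by
    refine ⟨?_, fun _ => f, fun _ => hf, ?_, ?_, tendsto_const_nhds⟩
    · rw [memLp_two_iff_integrable_sq hcf.aestronglyMeasurable]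
      exact hint _ (hcf.pow 2)
    · simp
    · intro ε hε
      refine ⟨0, fun i _ j _ => ?_⟩
      simp only [hzero, integral_zero]
      exact hε.le
  have heq : W12 h dv f (∫ x, grad2 h f x ∂dv) τ = W h dv f τ := by
    unfold W12 W
    congr 1
    have c1 : Continuous fun x => scal h x * f x ^ 2 :=
      (continuous_scal hφ hlam hh).mul (hcf.pow 2)
    have c2 : Continuous fun x => 4 * grad2 h f x :=
      continuous_const.mul (continuous_grad2 hφ hlam hh hf)
    have c3 : Continuous fun x => 2 * f x ^ 2 * Real.log (f x) :=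
      (continuous_const.mul (hcf.pow 2)).mul (hcf.log fun x => (hf0 x).ne')
    have i1 : Integrable (fun x => τ * (scal h x * f x ^ 2 + 4 * grad2 h f x)) dv :=
      hint _ (continuous_const.mul (c1.add c2))
    rw [integral_sub i1 (hint _ c3), integral_const_mul,
      integral_add (hint _ c1) (hint _ c2), integral_const_mul]
  unfold nu
  rw [← heq]
  exact iInf_le_of_le f (iInf_le_of_le _ (iInf_le_of_le τ (iInf_le_of_le
    ⟨hτ, hW12, fun x => (hf0 x).le, hf1⟩ le_rfl)))

end Pool.Agent.helper63.NU
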